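import Pool.Agent.H95.LH.Step

/-!
# Absolutely summable coefficients along Hadamard sequences

For `p ≠ 2` a Laurent matrix bounded on `ℓ^p` has absolutely summable coefficients along every
sequence `n (k+1) ≥ q n k`, `q > 1`, of positive frequencies.
-/

set_option autoImplicit false

open Finset

namespace Pool.Agent.H95.LH

/-- The pairing with the one sided Riesz product `∏ (1 + η k z^(n k))`, `k < d`. -/
noncomputable def R (n : ℕ → ℕ) (η : ℕ → ℂ) : ℕ → (ℤ → ℂ) → ℂ
  | 0, a => a 0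
  | d + 1, a => R n η d (fun m => a m + η d * a (m + n d))

/-- The window sizes. -/
def W (n : ℕ → ℕ) : ℕ → ℕ
  | 0 => 1
  | d + 1 => n d + W n d

theorem W_le {n : ℕ → ℕ} (h0 : 0 < n 0) (h : ∀ k, 2 * n k ≤ n (k + 1)) :
    ∀ d, W n d ≤ n d := by
  intro d
  induction d with
  | zero => exact h0
  | succ d ih =>
    have := h d
    simp only [W]
    omega

theorem R_bound {p q : ℝ} (hpq : p.HolderConjugate q) {s t : ℝ} (hs : 0 < s) (ht : 0 < t)
    (hst : s ^ p + t ^ p = 1) (C : ℝ) {n : ℕ → ℕ} (h0 : 0 < n 0) (h : ∀ k, 2 * n k ≤ n (k + 1))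
    (w : ℕ → ℂ) (hw : ∀ k, ‖w k‖ = 1) : ∀ (d : ℕ) (a : ℤ → ℂ), Bd p q (W n d) a C →
      ‖R n (fun k => ((s * t ^ (p - 1) - t * s ^ (p - 1) : ℝ) : ℂ) * w k) d a‖ ≤ C := by
  intro d
  induction d with
  | zero =>
    intro a h
    have h1 := h (fun _ => 1) (fun _ => 1)
    simpa [B, R, W] using h1
  | succ d ih =>
    intro a hB
    have h2 := step hpq hs ht hst (W_le h0 h d) hB (hw d)
    exact ih _ h2

theorem R_lin (n : ℕ → ℕ) (η : ℕ → ℂ) : ∀ (d : ℕ) (a b : ℤ → ℂ) (c : ℂ),
    R n η d (fun m => a m + c * b m) = R n η d a + c * R n η d b := by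
  intro d
  induction d with
  | zero => intro a b c; rfl
  | succ d ih =>
    intro a b c
    simp only [R]
    have e : (fun m => a m + c * b m + η d * (a (m + n d) + c * b (m + n d))) =
        (fun m => (a m + η d * a (m + n d)) + c * (b m + η d * b (m + n d))) := by
      funext m; ring
    rw [e]
    exact ih (fun m => a m + η d * a (m + n d)) (fun m => b m + η d * b (m + n d)) c

/-- `R` at `η = 0`. -/
theorem R_at_zero (n : ℕ → ℕ) (η : ℕ → ℂ) : ∀ (d : ℕ) (a : ℤ → ℂ),
    R n (fun k => (0 : ℂ) * η k) d a = a 0 := by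
  intro d
  induction d with
  | zero => intro a; rfl
  | succ d ih =>
    intro a
    simp only [R]
    rw [ih]
    ring

theorem R_diff (n : ℕ → ℕ) (η : ℕ → ℂ) : ∀ (d : ℕ) (a : ℤ → ℂ),
    Differentiable ℂ (fun z : ℂ => R n (fun k => z * η k) d a) ∧
      HasDerivAt (fun z : ℂ => R n (fun k => z * η k) d a) (∑ k ∈ range d, η k * a (n k)) 0 := by
  intro d
  induction d with
  | zero =>
    intro a
    simp only [R, Finset.range_zero, Finset.sum_empty]
    exact ⟨differentiable_const _, hasDerivAt_const _ _⟩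
  | succ d ih =>
    intro a
    have e : (fun z : ℂ => R n (fun k => z * η k) (d + 1) a) =
        fun z : ℂ => R n (fun k => z * η k) d a +
          (z * η d) * R n (fun k => z * η k) d (fun m => a (m + n d)) := by
      funext z
      simp only [R]
      exact R_lin n (fun k => z * η k) d a (fun m => a (m + n d)) (z * η d)
    rw [e]
    obtain ⟨d1, h1⟩ := ih a
    obtain ⟨d2, h2⟩ := ih (fun m => a (m + n d))
    constructor
    · exact d1.add ((differentiable_id.mul_const _).mul d2)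
    · have h3 : HasDerivAt (fun z : ℂ => z * η d) (η d) 0 := by
        simpa using (hasDerivAt_id (0 : ℂ)).mul_const (η d)
      have h4 := h1.add (h3.mul h2)
      rw [Finset.sum_range_succ]
      have h5 : η d * R n (fun k => (0 : ℂ) * η k) d (fun m => a (m + n d)) +
          0 * η d * ∑ k ∈ range d, η k * a ((n k : ℤ) + n d) = η d * a (n d) := by
        rw [R_at_zero, zero_mul, zero_mul, add_zero, zero_add]
      rw [← h5]
      exact h4

/-- The case of ratio `2`. -/
theorem sum_le_of_two {p q : ℝ} (hpq : p.HolderConjugate q) {s t : ℝ} (hs : 0 < s) (ht : 0 < t)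
    (hst : s ^ p + t ^ p = 1) (hκ : 0 < s * t ^ (p - 1) - t * s ^ (p - 1)) {C : ℝ} {a : ℤ → ℂ}
    (ha : ∀ N, Bd p q N a C)
    {n : ℕ → ℕ} (h0 : 0 < n 0) (h : ∀ k, 2 * n k ≤ n (k + 1)) (d : ℕ) :
    ∑ k ∈ range d, ‖a (n k)‖ ≤ C / (s * t ^ (p - 1) - t * s ^ (p - 1)) := by
  set κ := s * t ^ (p - 1) - t * s ^ (p - 1) with hκdef
  -- phases
  have hph : ∀ k : ℕ, ∃ w : ℂ, ‖w‖ = 1 ∧ w * a (n k) = ‖a (n k)‖ := by
    intro k
    by_cases hz : a (n k) = 0
    · exact ⟨1, by simp, by simp [hz]⟩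
    · have hn : ‖a (n k)‖ ≠ 0 := norm_ne_zero_iff.mpr hz
      refine ⟨(starRingEnd ℂ) (a (n k)) / ‖a (n k)‖, ?_, ?_⟩
      · rw [norm_div, RCLike.norm_conj, Complex.norm_real, norm_norm, div_self hn]
      · rw [div_mul_eq_mul_div, ← Complex.normSq_eq_conj_mul_self, Complex.normSq_eq_norm_sq]
        have : (‖a (n k)‖ : ℂ) ≠ 0 := by exact_mod_cast hn
        rw [div_eq_iff this]
        push_cast
        ring
  choose w hw1 hw2 using hph
  set F : ℂ → ℂ := fun z => R n (fun k => z * ((κ : ℂ) * w k)) d a with hF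
  obtain ⟨hd, hder⟩ := R_diff n (fun k => (κ : ℂ) * w k) d a
  have hC : ∀ z ∈ Metric.sphere (0 : ℂ) 1, ‖F z‖ ≤ C := by
    intro z hz
    have hz1 : ‖z‖ = 1 := by simpa using hz
    have e : (fun k => z * ((κ : ℂ) * w k)) = fun k => (κ : ℂ) * (z * w k) := by
      funext k; ring
    rw [hF]
    simp only
    rw [e]
    exact R_bound hpq hs ht hst C h0 h (fun k => z * w k)
      (fun k => by rw [norm_mul, hz1, hw1, one_mul]) d a (ha _)
  have h1 := Complex.norm_deriv_le_of_forall_mem_sphere_norm_le (f := F) (c := 0) one_pos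
    (hd.diffContOnCl) hC
  rw [hder.deriv, div_one] at h1
  have h2 : ∑ k ∈ range d, (κ : ℂ) * w k * a (n k) =
      ((κ * ∑ k ∈ range d, ‖a (n k)‖ : ℝ) : ℂ) := by
    rw [Complex.ofReal_mul, Complex.ofReal_sum, Finset.mul_sum]
    apply Finset.sum_congr rfl
    intro k _
    rw [mul_assoc, hw2]
  rw [h2, Complex.norm_real] at h1
  rw [le_div_iff₀ hκ, mul_comm]
  exact le_trans (le_abs_self _) h1

/-- The general case: there is a constant depending only on `p` and the ratio. -/
theorem sum_le_of_ratio {p q : ℝ} (hpq : p.HolderConjugate q) (hp2 : p ≠ 2) {r : ℝ} (hr : 1 < r) :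
    ∃ K : ℝ, 0 < K ∧ ∀ (a : ℤ → ℂ) (C : ℝ), (∀ N, Bd p q N a C) → ∀ n : ℕ → ℕ, 0 < n 0 →
      (∀ k, r * n k ≤ n (k + 1)) → ∀ d : ℕ, ∑ k ∈ range d, ‖a (n k)‖ ≤ K * C := by
  obtain ⟨s, t, hs, ht, hst, hκ⟩ := Pool.Agent.H35.Hankel.params hpq.lt hp2
  obtain ⟨M, hM⟩ := pow_unbounded_of_one_lt 2 hr
  have hM0 : 0 < M := by
    rcases Nat.eq_zero_or_pos M with h | h
    · rw [h] at hM; norm_num at hM
    · exact h
  set κ := s * t ^ (p - 1) - t * s ^ (p - 1) with hκdef
  refine ⟨M / κ, by positivity, ?_⟩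
  intro a C ha n h0 hn d
  have hC : 0 ≤ C := by
    have h1 := ha 1 (fun _ => 1) (fun _ => 1)
    have h2 : (0 : ℝ) ≤ C * (∑ k ∈ range 1, ‖(1 : ℂ)‖ ^ p) ^ (1 / p) *
        (∑ l ∈ range 1, ‖(1 : ℂ)‖ ^ q) ^ (1 / q) := le_trans (norm_nonneg _) h1
    simpa using h2
  have hmono : ∀ k, n k ≤ n (k + 1) := by
    intro k
    have h1 := hn k
    have h2 : (n k : ℝ) ≤ r * n k := by
      have : (0 : ℝ) ≤ n k := Nat.cast_nonneg _
      nlinarith
    exact_mod_cast le_trans h2 h1
  have hpos : ∀ k, 0 < n k := by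
    intro k
    induction k with
    | zero => exact h0
    | succ k ih => exact lt_of_lt_of_le ih (hmono k)
  have hpow : ∀ j k, r ^ j * n k ≤ n (k + j) := by
    intro j
    induction j with
    | zero => intro k; simp
    | succ j ih =>
      intro k
      have h1 := ih k
      have h2 := hn (k + j)
      calc r ^ (j + 1) * n k = r * (r ^ j * n k) := by ring
        _ ≤ r * n (k + j) := by gcongr
        _ ≤ _ := by rw [← add_assoc]; exact h2
  -- blocks
  have hblock : ∀ D : ℕ, ∑ k ∈ range (D * M), ‖a (n k)‖ =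
      ∑ j ∈ range D, ∑ i ∈ range M, ‖a (n (j * M + i))‖ := by
    intro D
    induction D with
    | zero => simp
    | succ D ih =>
      rw [add_mul, one_mul, Finset.sum_range_add, ih, Finset.sum_range_succ]
  have hle : ∑ k ∈ range d, ‖a (n k)‖ ≤ ∑ k ∈ range (d * M), ‖a (n k)‖ := by
    apply Finset.sum_le_sum_of_subset_of_nonneg
    · apply Finset.range_subset_range.mpr
      exact Nat.le_mul_of_pos_right d hM0
    · intro _ _ _
      exact norm_nonneg _
  refine le_trans hle ?_
  rw [hblock, Finset.sum_comm]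
  have hi : ∀ i ∈ range M, ∑ j ∈ range d, ‖a (n (j * M + i))‖ ≤ C / κ := by
    intro i _
    have h1 := sum_le_of_two hpq hs ht hst hκ ha (n := fun j => n (j * M + i))
      (hpos _) (fun k => by
        have h2 := hpow M (k * M + i)
        have h3 : (2 : ℝ) * n (k * M + i) ≤ n (k * M + i + M) := by
          refine le_trans ?_ h2
          gcongr
        have h4 : 2 * n (k * M + i) ≤ n (k * M + i + M) := by exact_mod_cast h3
        have h5 : (k + 1) * M + i = k * M + i + M := by ring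
        rw [h5]
        exact h4) d
    exact h1
  refine le_trans (Finset.sum_le_sum hi) ?_
  rw [Finset.sum_const, Finset.card_range, nsmul_eq_mul]
  apply le_of_eq
  ring

end Pool.Agent.H95.LH
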