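import Mathlib
import Pool.Agent.H35.HankelA

/-!
# One sided Riesz products act boundedly on the multipliers of `ℓ^p`, `p ≠ 2`

Window forms of a Laurent matrix with complex vectors, arbitrary shifts and phases.
-/

set_option autoImplicit false

open Finset

namespace Pool.Agent.H95.LH

/-- The bilinear pairing on the window `[0, N)`. -/
noncomputable def B (N : ℕ) (a : ℤ → ℂ) (u v : ℕ → ℂ) : ℂ :=
  ∑ k ∈ range N, (∑ l ∈ range N, a ((l : ℤ) - k) * v l) * u k

/-- Window bound. -/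
def Bd (p q : ℝ) (N : ℕ) (a : ℤ → ℂ) (C : ℝ) : Prop :=
  ∀ u v : ℕ → ℂ, ‖B N a u v‖ ≤
    C * (∑ k ∈ range N, ‖u k‖ ^ p) ^ (1 / p) * (∑ l ∈ range N, ‖v l‖ ^ q) ^ (1 / q)

/-- Two shifted copies of a window vector. -/
def dbl (N n : ℕ) (x y : ℂ) (u : ℕ → ℂ) (k : ℕ) : ℂ :=
  if k < N then x * u k else if n ≤ k then y * u (k - n) else 0

theorem sum_dbl_mul {N n : ℕ} (h : N ≤ n) (x y : ℂ) (F u : ℕ → ℂ) :
    ∑ k ∈ range (n + N), F k * dbl N n x y u k =
      ∑ k ∈ range N, (x * F k + y * F (n + k)) * u k := by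
  rw [Finset.sum_range_add]
  have h1 : ∑ k ∈ range n, F k * dbl N n x y u k = ∑ k ∈ range N, F k * (x * u k) := by
    obtain ⟨d, rfl⟩ := Nat.exists_eq_add_of_le h
    rw [Finset.sum_range_add]
    have h2 : ∑ k ∈ range d, F (N + k) * dbl N (N + d) x y u (N + k) = 0 := by
      apply Finset.sum_eq_zero
      intro k hk
      have hk' := Finset.mem_range.mp hk
      have : dbl N (N + d) x y u (N + k) = 0 := by
        unfold dbl
        rw [if_neg (by omega), if_neg (by omega)]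
      rw [this, mul_zero]
    rw [h2, add_zero]
    apply Finset.sum_congr rfl
    intro k hk
    unfold dbl
    rw [if_pos (Finset.mem_range.mp hk)]
  have h3 : ∑ k ∈ range N, F (n + k) * dbl N n x y u (n + k) =
      ∑ k ∈ range N, F (n + k) * (y * u k) := by
    apply Finset.sum_congr rfl
    intro k hk
    unfold dbl
    rw [if_neg (by omega), if_pos (by omega)]
    congr 3
    omega
  rw [h1, h3, ← Finset.sum_add_distrib]
  apply Finset.sum_congr rfl
  intro k _
  ring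

theorem sum_dbl_norm {N n : ℕ} (h : N ≤ n) (x y : ℂ) (u : ℕ → ℂ) {p : ℝ} (hp : 0 < p) :
    ∑ k ∈ range (n + N), ‖dbl N n x y u k‖ ^ p =
      (‖x‖ ^ p + ‖y‖ ^ p) * ∑ k ∈ range N, ‖u k‖ ^ p := by
  rw [Finset.sum_range_add]
  have h1 : ∑ k ∈ range n, ‖dbl N n x y u k‖ ^ p = ∑ k ∈ range N, ‖x‖ ^ p * ‖u k‖ ^ p := by
    obtain ⟨d, rfl⟩ := Nat.exists_eq_add_of_le h
    rw [Finset.sum_range_add]
    have h2 : ∑ k ∈ range d, ‖dbl N (N + d) x y u (N + k)‖ ^ p = 0 := by
      apply Finset.sum_eq_zero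
      intro k hk
      have hk' := Finset.mem_range.mp hk
      have : dbl N (N + d) x y u (N + k) = 0 := by
        unfold dbl
        rw [if_neg (by omega), if_neg (by omega)]
      rw [this, norm_zero, Real.zero_rpow hp.ne']
    rw [h2, add_zero]
    apply Finset.sum_congr rfl
    intro k hk
    unfold dbl
    rw [if_pos (Finset.mem_range.mp hk), norm_mul, Real.mul_rpow (norm_nonneg _) (norm_nonneg _)]
  have h3 : ∑ k ∈ range N, ‖dbl N n x y u (n + k)‖ ^ p =
      ∑ k ∈ range N, ‖y‖ ^ p * ‖u k‖ ^ p := by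
    apply Finset.sum_congr rfl
    intro k hk
    unfold dbl
    rw [if_neg (by omega), if_pos (by omega), norm_mul,
      Real.mul_rpow (norm_nonneg _) (norm_nonneg _)]
    congr 4
    omega
  rw [h1, h3, ← Finset.mul_sum, ← Finset.mul_sum]
  ring

theorem B_dbl {N n : ℕ} (h : N ≤ n) (a : ℤ → ℂ) (u v : ℕ → ℂ) (x y x' y' : ℂ) :
    B (n + N) a (dbl N n x y u) (dbl N n x' y' v) =
      (x * x' + y * y') * B N a u v
      + (x * y') * B N (fun m => a (m + n)) u v
      + (y * x') * B N (fun m => a (m - n)) u v := by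
  unfold B
  have e1 : ∀ k : ℕ, ∑ l ∈ range (n + N), a ((l : ℤ) - k) * dbl N n x' y' v l =
      ∑ l ∈ range N, (x' * a ((l : ℤ) - k) + y' * a ((l : ℤ) - k + n)) * v l := by
    intro k
    rw [sum_dbl_mul h x' y' (fun l : ℕ => a ((l : ℤ) - k)) v]
    apply Finset.sum_congr rfl
    intro l _
    have : ((n + l : ℕ) : ℤ) - k = (l : ℤ) - k + n := by push_cast; ring
    simp only [this]
  simp_rw [e1]
  rw [sum_dbl_mul h x y
    (fun k : ℕ => ∑ l ∈ range N, (x' * a ((l : ℤ) - k) + y' * a ((l : ℤ) - k + n)) * v l) u]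
  rw [Finset.mul_sum, Finset.mul_sum, Finset.mul_sum, ← Finset.sum_add_distrib,
    ← Finset.sum_add_distrib]
  apply Finset.sum_congr rfl
  intro k _
  rw [← mul_assoc, ← mul_assoc, ← mul_assoc, ← add_mul, ← add_mul]
  congr 1
  rw [Finset.mul_sum, Finset.mul_sum, Finset.mul_sum, Finset.mul_sum, Finset.mul_sum,
    ← Finset.sum_add_distrib, ← Finset.sum_add_distrib, ← Finset.sum_add_distrib]
  apply Finset.sum_congr rfl
  intro l _
  have e2 : (l : ℤ) - ((n + k : ℕ) : ℤ) = (l : ℤ) - k - n := by push_cast; ring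
  have e3 : (l : ℤ) - ((n + k : ℕ) : ℤ) + n = (l : ℤ) - k := by push_cast; ring
  rw [e3, e2]
  ring

theorem B_add (N : ℕ) (a b : ℤ → ℂ) (c : ℂ) (u v : ℕ → ℂ) :
    B N (fun n => a n + c * b n) u v = B N a u v + c * B N b u v := by
  unfold B
  rw [Finset.mul_sum, ← Finset.sum_add_distrib]
  apply Finset.sum_congr rfl
  intro k _
  rw [← mul_assoc, ← add_mul]
  congr 1
  rw [Finset.mul_sum, ← Finset.sum_add_distrib]
  apply Finset.sum_congr rfl
  intro l _
  ring

/-- The one step inequality. -/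
theorem step {p q : ℝ} (hpq : p.HolderConjugate q) {s t : ℝ} (hs : 0 < s) (ht : 0 < t)
    (hst : s ^ p + t ^ p = 1) {N n : ℕ} (hNn : N ≤ n) {a : ℤ → ℂ} {C : ℝ} (h : Bd p q (n + N) a C)
    {w : ℂ} (hw1 : ‖w‖ = 1) :
    Bd p q N (fun m => a m + ((s * t ^ (p - 1) - t * s ^ (p - 1) : ℝ) : ℂ) * w * a (m + n)) C := by
  intro u v
  set s' := s ^ (p - 1) with hs'
  set t' := t ^ (p - 1) with ht'
  have hs'pos : 0 < s' := Real.rpow_pos_of_pos hs _
  have ht'pos : 0 < t' := Real.rpow_pos_of_pos ht _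
  have hss : s * s' = s ^ p := by
    rw [hs', mul_comm, ← Real.rpow_add_one hs.ne']; ring_nf
  have htt : t * t' = t ^ p := by
    rw [ht', mul_comm, ← Real.rpow_add_one ht.ne']; ring_nf
  have hq : (p - 1) * q = p := hpq.sub_one_mul_conj
  have hsq : s' ^ q = s ^ p := by rw [hs', ← Real.rpow_mul hs.le, hq]
  have htq : t' ^ q = t ^ p := by rw [ht', ← Real.rpow_mul ht.le, hq]
  have hDpos : 0 < t * s' + s * t' := by positivity
  set w0 := s * t' / (t * s' + s * t') with hw0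
  set w1 := t * s' / (t * s' + s * t') with hw1'
  have hw0n : 0 ≤ w0 := by positivity
  have hw1n : 0 ≤ w1 := by positivity
  have hw : w0 + w1 = 1 := by
    rw [hw0, hw1', ← add_div, add_comm (s * t')]
    exact div_self hDpos.ne'
  have hA : w0 * (s * s' + t * t') + w1 * (t * t' + s * s') = 1 := by
    rw [hss, htt, add_comm (t ^ p), hst]; linarith
  have hB : w0 * (s * t') - w1 * (t * s') = s * t' - t * s' := by
    rw [hw0, hw1']; field_simp; ring
  have hC : w0 * (t * s') - w1 * (s * t') = 0 := by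
    rw [hw0, hw1']; field_simp; ring
  have hww : (starRingEnd ℂ) w * w = 1 := by
    rw [← Complex.normSq_eq_conj_mul_self, Complex.normSq_eq_norm_sq, hw1]
    norm_num
  have hwc : ‖(starRingEnd ℂ) w‖ = 1 := by rw [RCLike.norm_conj, hw1]
  set W := (starRingEnd ℂ) w with hW
  have e0 := B_dbl hNn a u v s (t * W) s' (t' * w)
  have e1 := B_dbl hNn a u v t (-s * W) t' (-s' * w)
  have key : B N (fun m => a m + ((s * t' - t * s' : ℝ) : ℂ) * w * a (m + n)) u v =
      (w0 : ℂ) * B (n + N) a (dbl N n s (t * W) u) (dbl N n s' (t' * w) v)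
      + (w1 : ℂ) * B (n + N) a (dbl N n t (-s * W) u) (dbl N n t' (-s' * w) v) := by
    rw [B_add N a (fun m => a (m + n)), e0, e1]
    have hA' : (w0 : ℂ) * ((s : ℂ) * s' + t * t') + (w1 : ℂ) * ((t : ℂ) * t' + s * s') = 1 := by
      exact_mod_cast hA
    have hB' : (w0 : ℂ) * ((s : ℂ) * t') - (w1 : ℂ) * ((t : ℂ) * s')
        = ((s * t' - t * s' : ℝ) : ℂ) := by
      exact_mod_cast hB
    have hC' : (w0 : ℂ) * ((t : ℂ) * s') - (w1 : ℂ) * ((s : ℂ) * t') = 0 := by
      exact_mod_cast hC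
    rw [← hB']
    have e2 : (s : ℂ) * s' + t * W * (t' * w) = (s : ℂ) * s' + t * t' := by
      linear_combination (t : ℂ) * t' * hww
    have e3 : (t : ℂ) * t' + -s * W * (-s' * w) = (t : ℂ) * t' + s * s' := by
      linear_combination (s : ℂ) * s' * hww
    rw [e2, e3]
    linear_combination (-(B N a u v)) * hA' - W * (B N (fun m => a (m - n)) u v) * hC'
  rw [key]
  have n0 := h (dbl N n s (t * W) u) (dbl N n s' (t' * w) v)
  have n1 := h (dbl N n t (-s * W) u) (dbl N n t' (-s' * w) v)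
  have hp0 := hpq.pos
  have hq0 := hpq.symm.pos
  have ns : ‖(s : ℂ)‖ = s := by rw [Complex.norm_real, Real.norm_of_nonneg hs.le]
  have nt : ‖(t : ℂ)‖ = t := by rw [Complex.norm_real, Real.norm_of_nonneg ht.le]
  have ns' : ‖(s' : ℂ)‖ = s' := by rw [Complex.norm_real, Real.norm_of_nonneg hs'pos.le]
  have nt' : ‖(t' : ℂ)‖ = t' := by rw [Complex.norm_real, Real.norm_of_nonneg ht'pos.le]
  rw [sum_dbl_norm hNn _ _ _ hp0, sum_dbl_norm hNn _ _ _ hq0] at n0 n1
  rw [norm_mul (t : ℂ) W, norm_mul (t' : ℂ) w, ns, nt, ns', nt', hwc, hw1, mul_one, mul_one,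
    hsq, htq, hst, one_mul, one_mul] at n0
  rw [norm_mul (-(s : ℂ)) W, norm_mul (-(s' : ℂ)) w, norm_neg, norm_neg, ns, nt, ns', nt', hwc, hw1,
    mul_one, mul_one, hsq, htq, add_comm (t ^ p), hst, one_mul, one_mul] at n1
  calc ‖(w0 : ℂ) * B (n + N) a (dbl N n s (t * W) u) (dbl N n s' (t' * w) v)
      + (w1 : ℂ) * B (n + N) a (dbl N n t (-s * W) u) (dbl N n t' (-s' * w) v)‖
      ≤ w0 * ‖B (n + N) a (dbl N n s (t * W) u) (dbl N n s' (t' * w) v)‖
        + w1 * ‖B (n + N) a (dbl N n t (-s * W) u) (dbl N n t' (-s' * w) v)‖ := by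
        refine le_trans (norm_add_le _ _) ?_
        rw [norm_mul, norm_mul, Complex.norm_real, Complex.norm_real, Real.norm_of_nonneg hw0n,
          Real.norm_of_nonneg hw1n]
    _ ≤ w0 * (C * (∑ k ∈ range N, ‖u k‖ ^ p) ^ (1 / p) * (∑ l ∈ range N, ‖v l‖ ^ q) ^ (1 / q))
        + w1 * (C * (∑ k ∈ range N, ‖u k‖ ^ p) ^ (1 / p)
          * (∑ l ∈ range N, ‖v l‖ ^ q) ^ (1 / q)) := by
        gcongr
    _ = C * (∑ k ∈ range N, ‖u k‖ ^ p) ^ (1 / p) * (∑ l ∈ range N, ‖v l‖ ^ q) ^ (1 / q) := by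
        rw [← add_mul, hw, one_mul]

end Pool.Agent.H95.LH
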