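import Mathlib

/-!
# Upper bounds: Young's inequality on `ℤ` and lacunary Hankel operators on `ℓ^p`
-/

set_option autoImplicit false

open MeasureTheory
open scoped ENNReal

namespace Pool.Agent.H95.LH

theorem tsum_holder {ι : Type*} [Countable ι] {p q : ℝ} (hpq : p.HolderConjugate q)
    (x y : ι → ℝ≥0∞) :
    ∑' j, x j * y j ≤ (∑' j, x j ^ p) ^ (1 / p) * (∑' j, y j ^ q) ^ (1 / q) := by
  let _ : MeasurableSpace ι := ⊤
  have h := ENNReal.lintegral_mul_le_Lp_mul_Lq (Measure.count : Measure ι) hpq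
    (f := x) (g := y) (measurable_of_countable _).aemeasurable
    (measurable_of_countable _).aemeasurable
  simpa [lintegral_count] using h

theorem tsum_shift (G : ℤ → ℝ≥0∞) (m : ℤ) : ∑' n, G (m + n) = ∑' n, G n :=
  (Equiv.addLeft m).tsum_eq G

/-- Young's inequality on `ℤ`. -/
theorem young {p : ℝ} (hp : 1 ≤ p) (b G : ℤ → ℝ≥0∞) :
    ∑' n : ℤ, (∑' j : ℤ, b j * G (j + n)) ^ p ≤ (∑' j, b j) ^ p * ∑' n, G n ^ p := by
  rcases hp.eq_or_lt with h | h
  · rw [← h]
    simp only [ENNReal.rpow_one]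
    rw [ENNReal.tsum_comm]
    apply le_of_eq
    rw [← ENNReal.tsum_mul_right]
    congr 1
    funext j
    rw [ENNReal.tsum_mul_left, tsum_shift]
  · have hpq : p.HolderConjugate p.conjExponent := Real.HolderConjugate.conjExponent h
    set q := p.conjExponent with hq
    have hp0 : 0 < p := hpq.pos
    have hq0 : 0 < q := hpq.symm.pos
    have h1 : ∀ n : ℤ, (∑' j : ℤ, b j * G (j + n)) ^ p ≤
        (∑' j, b j) ^ (p / q) * ∑' j : ℤ, b j * G (j + n) ^ p := by
      intro n
      have h2 := tsum_holder hpq (fun j : ℤ => b j ^ (1 / p) * G (j + n)) (fun j => b j ^ (1 / q))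
      have h3 : ∀ j : ℤ, b j ^ (1 / p) * G (j + n) * b j ^ (1 / q) = b j * G (j + n) := by
        intro j
        rw [mul_right_comm, ← ENNReal.rpow_add_of_nonneg _ _ (by positivity) (by positivity)]
        have : 1 / p + 1 / q = 1 := by
          rw [one_div, one_div]
          exact hpq.inv_add_inv_eq_one
        rw [this, ENNReal.rpow_one]
      have h4 : ∀ j : ℤ, (b j ^ (1 / p) * G (j + n)) ^ p = b j * G (j + n) ^ p := by
        intro j
        rw [ENNReal.mul_rpow_of_nonneg _ _ hp0.le, ← ENNReal.rpow_mul, one_div_mul_cancel hp0.ne',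
          ENNReal.rpow_one]
      have h5 : ∀ j : ℤ, (b j ^ (1 / q)) ^ q = b j := by
        intro j
        rw [← ENNReal.rpow_mul, one_div_mul_cancel hq0.ne', ENNReal.rpow_one]
      simp only [h3, h4, h5] at h2
      calc (∑' j : ℤ, b j * G (j + n)) ^ p
          ≤ ((∑' j : ℤ, b j * G (j + n) ^ p) ^ (1 / p) * (∑' j, b j) ^ (1 / q)) ^ p :=
            ENNReal.rpow_le_rpow h2 hp0.le
        _ = _ := by
            rw [ENNReal.mul_rpow_of_nonneg _ _ hp0.le, ← ENNReal.rpow_mul, ← ENNReal.rpow_mul,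
              one_div_mul_cancel hp0.ne', ENNReal.rpow_one, mul_comm, one_div_mul_eq_div]
    calc ∑' n : ℤ, (∑' j : ℤ, b j * G (j + n)) ^ p
        ≤ ∑' n : ℤ, (∑' j, b j) ^ (p / q) * ∑' j : ℤ, b j * G (j + n) ^ p :=
          ENNReal.tsum_le_tsum h1
      _ = (∑' j, b j) ^ (p / q) * ((∑' j, b j) * ∑' n, G n ^ p) := by
          rw [ENNReal.tsum_mul_left, ENNReal.tsum_comm, ← ENNReal.tsum_mul_right]
          congr 2
          funext j
          rw [ENNReal.tsum_mul_left, tsum_shift (fun n => G n ^ p) j]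
      _ = _ := by
          rw [← mul_assoc]
          congr 1
          nth_rewrite 2 [← ENNReal.rpow_one (∑' j, b j)]
          rw [← ENNReal.rpow_add_of_nonneg _ _ (by positivity) zero_le_one]
          congr 1
          have h6 := hpq.sub_one_mul_conj
          rw [div_add_one hq0.ne', div_eq_iff hq0.ne']
          linarith

variable {N : ℕ → ℤ}

theorem gap_aux (hN0 : 0 < N 0) (hN : ∀ j, 2 * N j ≤ N (j + 1)) {i j : ℕ} {a : ℤ}
    (h1 : a ≤ N i) (h2 : N i < 2 * a)
    (h3 : a ≤ N j) (h4 : N j < 2 * a) : i = j := by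
  have hpos : ∀ k, 0 < N k := by
    intro k
    induction k with
    | zero => exact hN0
    | succ k ih => have := hN k; linarith
  have hmono : Monotone N := monotone_nat_of_le_succ (fun k => by
    have := hN k
    have := hpos k
    linarith)
  rcases lt_trichotomy i j with h | h | h
  · exfalso
    have h5 := hmono (Nat.succ_le_of_lt h)
    have h6 := hN i
    simp only [Nat.succ_eq_add_one] at h5
    linarith
  · exact h
  · exfalso
    have h5 := hmono (Nat.succ_le_of_lt h)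
    have h6 := hN j
    simp only [Nat.succ_eq_add_one] at h5
    linarith

/-- The near part. -/
noncomputable def T1 (N : ℕ → ℤ) (c : ℕ → ℝ≥0∞) (G : ℤ → ℝ≥0∞) (n : ℤ) : ℝ≥0∞ :=
  ∑' j : ℕ, if N j < -2 * n then c j * G (N j + n) else 0

/-- The far part. -/
noncomputable def T2 (N : ℕ → ℤ) (c : ℕ → ℝ≥0∞) (G : ℤ → ℝ≥0∞) (n : ℤ) : ℝ≥0∞ :=
  ∑' j : ℕ, if -2 * n ≤ N j then c j * G (N j + n) else 0

theorem split (c : ℕ → ℝ≥0∞) (G : ℤ → ℝ≥0∞) (n : ℤ) :
    ∑' j : ℕ, c j * G (N j + n) = T1 N c G n + T2 N c G n := by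
  unfold T1 T2
  rw [← ENNReal.tsum_add]
  congr 1
  funext j
  by_cases h : N j < -2 * n
  · have h' : ¬ (-2 * n ≤ N j) := not_le.mpr h
    rw [if_pos h, if_neg h', add_zero]
  · have h' : -2 * n ≤ N j := not_lt.mp h
    rw [if_neg h, if_pos h', zero_add]

theorem T1_bound (hN0 : 0 < N 0) (hN : ∀ j, 2 * N j ≤ N (j + 1)) (p : ℝ) (hp : 1 < p) (c : ℕ → ℝ≥0∞) (G : ℤ → ℝ≥0∞) (hG : ∀ n < 0, G n = 0)
    (n : ℤ) : T1 N c G n ^ p ≤ ∑' j : ℕ, (c j * G (N j + n)) ^ p := by
  have hp0 : 0 < p := by linarith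
  by_cases h : ∃ i : ℕ, -n ≤ N i ∧ N i < -2 * n
  · obtain ⟨i, hi1, hi2⟩ := h
    have h1 : T1 N c G n = c i * G (N i + n) := by
      unfold T1
      rw [tsum_eq_single i]
      · simp only [hi2, if_true]
      · intro j hj
        by_cases hj2 : N j < -2 * n
        · simp only [hj2, if_true]
          have : N j + n < 0 := by
            by_contra hcon
            push Not at hcon
            exact hj (gap_aux hN0 hN (a := -n) (by linarith) (by linarith) hi1 (by linarith))
          rw [hG _ this, mul_zero]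
        · simp only [hj2, if_false]
    rw [h1]
    exact ENNReal.le_tsum i
  · push Not at h
    have h1 : T1 N c G n = 0 := by
      unfold T1
      rw [ENNReal.tsum_eq_zero]
      intro j
      by_cases hj2 : N j < -2 * n
      · simp only [hj2, if_true]
        have : N j + n < 0 := by
          by_contra hcon
          push Not at hcon
          have := h j (by linarith)
          linarith
        rw [hG _ this, mul_zero]
      · simp only [hj2, if_false]
    rw [h1, ENNReal.zero_rpow_of_pos hp0]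
    exact zero_le

theorem T1_sum (hN0 : 0 < N 0) (hN : ∀ j, 2 * N j ≤ N (j + 1)) (p : ℝ) (hp : 1 < p) (c : ℕ → ℝ≥0∞) (G : ℤ → ℝ≥0∞) (hG : ∀ n < 0, G n = 0) :
    ∑' n : ℤ, T1 N c G n ^ p ≤ (∑' j, c j ^ p) * ∑' n, G n ^ p := by
  have hp0 : 0 ≤ p := by linarith
  calc ∑' n : ℤ, T1 N c G n ^ p ≤ ∑' n : ℤ, ∑' j : ℕ, (c j * G (N j + n)) ^ p :=
        ENNReal.tsum_le_tsum fun n => T1_bound hN0 hN p hp c G hG n
    _ = ∑' j : ℕ, ∑' n : ℤ, (c j * G (N j + n)) ^ p := ENNReal.tsum_comm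
    _ = ∑' j : ℕ, c j ^ p * ∑' n : ℤ, G n ^ p := by
        congr 1
        funext j
        rw [← tsum_shift (fun n => G n ^ p) (N j), ← ENNReal.tsum_mul_left]
        congr 1
        funext n
        exact ENNReal.mul_rpow_of_nonneg _ _ hp0
    _ = (∑' j, c j ^ p) * ∑' n, G n ^ p := ENNReal.tsum_mul_right

theorem T2_bound {p q : ℝ} (hpq : p.HolderConjugate q) (c : ℕ → ℝ≥0∞) (G : ℤ → ℝ≥0∞)
    (n : ℤ) : T2 N c G n ^ p ≤ (∑' j, c j ^ q) ^ (p / q) *
      ∑' j : ℕ, (if -2 * n ≤ N j then G (N j + n) else 0) ^ p := by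
  have hp0 : 0 < p := hpq.pos
  have h1 : T2 N c G n = ∑' j : ℕ, (if -2 * n ≤ N j then G (N j + n) else 0) * c j := by
    unfold T2
    congr 1
    funext j
    by_cases h : -2 * n ≤ N j
    · simp only [h, if_true]; rw [mul_comm]
    · simp only [h, if_false]; rw [zero_mul]
  rw [h1]
  have h2 := tsum_holder hpq
    (fun j : ℕ => if -2 * n ≤ N j then G (N j + n) else 0) c
  calc _ ≤ ((∑' j : ℕ, (if -2 * n ≤ N j then G (N j + n) else 0) ^ p) ^ (1 / p)
        * (∑' j, c j ^ q) ^ (1 / q)) ^ p := ENNReal.rpow_le_rpow h2 hp0.le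
    _ = _ := by
      rw [ENNReal.mul_rpow_of_nonneg _ _ hp0.le, ← ENNReal.rpow_mul, ← ENNReal.rpow_mul,
        one_div_mul_cancel hp0.ne', ENNReal.rpow_one, mul_comm, one_div_mul_eq_div]

theorem T2_sum (hN0 : 0 < N 0) (hN : ∀ j, 2 * N j ≤ N (j + 1)) {p q : ℝ} (hpq : p.HolderConjugate q) (c : ℕ → ℝ≥0∞) (G : ℤ → ℝ≥0∞) :
    ∑' n : ℤ, (if n < 0 then T2 N c G n ^ p else 0) ≤
      (∑' j, c j ^ q) ^ (p / q) * ∑' n, G n ^ p := by
  have hp0 : 0 < p := hpq.pos
  have key : ∑' n : ℤ, ∑' j : ℕ,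
      (if n < 0 ∧ -2 * n ≤ N j then G (N j + n) ^ p else 0) ≤ ∑' n, G n ^ p := by
    rw [ENNReal.tsum_comm]
    have e1 : ∀ j : ℕ, ∑' n : ℤ,
        (if n < 0 ∧ -2 * n ≤ N j then G (N j + n) ^ p else 0) =
        ∑' m : ℤ, (if m < N j ∧ N j ≤ 2 * m then G m ^ p else 0) := by
      intro j
      rw [← tsum_shift (fun m : ℤ => if m < N j ∧ N j ≤ 2 * m
        then G m ^ p else 0) (N j)]
      congr 1
      funext n
      have e2 : (n < 0 ∧ -2 * n ≤ N j) ↔
          (N j + n < N j ∧ N j ≤ 2 * (N j + n)) := by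
        constructor
        · rintro ⟨h1, h2⟩; constructor <;> linarith
        · rintro ⟨h1, h2⟩; constructor <;> linarith
      simp only [e2]
    simp only [e1]
    rw [ENNReal.tsum_comm]
    apply ENNReal.tsum_le_tsum
    intro m
    by_cases h : ∃ i : ℕ, m < N i ∧ N i ≤ 2 * m
    · obtain ⟨i, hi1, hi2⟩ := h
      rw [tsum_eq_single i]
      · simp only [hi1, hi2, and_self, if_true]; exact le_rfl
      · intro j hj
        have : ¬ (m < N j ∧ N j ≤ 2 * m) := by
          rintro ⟨h1, h2⟩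
          apply hj
          exact gap_aux hN0 hN (a := m + 1) (by linarith) (by linarith) (by linarith) (by linarith)
        simp only [this, if_false]
    · push Not at h
      have : ∀ j : ℕ, (if m < N j ∧ N j ≤ 2 * m then G m ^ p else 0) = 0 := by
        intro j
        have : ¬ (m < N j ∧ N j ≤ 2 * m) := by
          rintro ⟨h1, h2⟩
          have := h j h1
          linarith
        simp only [this, if_false]
      simp only [this, tsum_zero]
      exact zero_le
  calc ∑' n : ℤ, (if n < 0 then T2 N c G n ^ p else 0)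
      ≤ ∑' n : ℤ, (∑' j, c j ^ q) ^ (p / q) * ∑' j : ℕ,
          (if n < 0 ∧ -2 * n ≤ N j then G (N j + n) ^ p else 0) := by
        apply ENNReal.tsum_le_tsum
        intro n
        by_cases hn : n < 0
        · simp only [hn, if_true, true_and]
          refine le_trans (T2_bound hpq c G n) ?_
          apply le_of_eq
          congr 1
          congr 1
          funext j
          by_cases h : -2 * n ≤ N j
          · simp only [h, if_true]
          · simp only [h, if_false]; exact ENNReal.zero_rpow_of_pos hp0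
        · simp only [hn, if_false]; exact zero_le
    _ = (∑' j, c j ^ q) ^ (p / q) * ∑' n : ℤ, ∑' j : ℕ,
          (if n < 0 ∧ -2 * n ≤ N j then G (N j + n) ^ p else 0) :=
        ENNReal.tsum_mul_left
    _ ≤ _ := by gcongr

theorem hankel_sum (hN0 : 0 < N 0) (hN : ∀ j, 2 * N j ≤ N (j + 1)) {p q : ℝ} (hpq : p.HolderConjugate q) (c : ℕ → ℝ≥0∞) (G : ℤ → ℝ≥0∞)
    (hG : ∀ n < 0, G n = 0) :
    ∑' n : ℤ, (if n < 0 then (∑' j : ℕ, c j * G (N j + n)) ^ p else 0) ≤
      (2 : ℝ≥0∞) ^ (p - 1) * ((∑' j, c j ^ p) + (∑' j, c j ^ q) ^ (p / q)) * ∑' n, G n ^ p := by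
  have hp : 1 < p := hpq.lt
  calc ∑' n : ℤ, (if n < 0 then (∑' j : ℕ, c j * G (N j + n)) ^ p else 0)
      ≤ ∑' n : ℤ, ((2 : ℝ≥0∞) ^ (p - 1) * (T1 N c G n ^ p + (if n < 0 then T2 N c G n ^ p else 0))) := by
        apply ENNReal.tsum_le_tsum
        intro n
        by_cases hn : n < 0
        · simp only [hn, if_true]
          rw [split]
          exact ENNReal.rpow_add_le_mul_rpow_add_rpow _ _ hp.le
        · simp only [hn, if_false]; exact zero_le
    _ = (2 : ℝ≥0∞) ^ (p - 1) * (∑' n : ℤ, T1 N c G n ^ p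
          + ∑' n : ℤ, (if n < 0 then T2 N c G n ^ p else 0)) := by
        rw [ENNReal.tsum_mul_left, ENNReal.tsum_add]
    _ ≤ (2 : ℝ≥0∞) ^ (p - 1) * ((∑' j, c j ^ p) * ∑' n, G n ^ p
          + (∑' j, c j ^ q) ^ (p / q) * ∑' n, G n ^ p) := by
        gcongr
        · exact T1_sum hN0 hN p hp c G hG
        · exact T2_sum hN0 hN hpq c G
    _ = _ := by rw [← add_mul, ← mul_assoc]

end Pool.Agent.H95.LH
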